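import Pool.Agent.H34.TAM.All3

/-!
MP_286349_an: the answer of Q1 depends only on the algebra generated by the tuple; for free blocks it
is equivalent to the answers for the blocks; the answer yes is stable under small polynomial
perturbations.
-/

set_option autoImplicit false

noncomputable section

namespace Pool.Agent.Results.MP_286349_an.ClosureProperties

/-- `τ` is a faithful tracial state of the unital C*-algebra `A`. -/
structure IsFaithfulTrace {A : Type} [CStarAlgebra A] (τ : A →ₗ[ℂ] ℂ) : Prop where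
  map_one : τ 1 = 1
  trace : ∀ a b, τ (a * b) = τ (b * a)
  positive : ∀ a, 0 ≤ (τ (star a * a)).re ∧ (τ (star a * a)).im = 0
  faithful : ∀ a, τ (star a * a) = 0 → a = 0

/-- The subalgebras `B j` are free with respect to `τ`: `τ(a_1 a_2 … a_n) = 0` for all `n ≥ 1`, all
indices `j_1 ≠ j_2 ≠ … ≠ j_n` and all `a_k ∈ B (j_k)` with `τ(a_k) = 0`. -/
def AreFree {A ι : Type} [Ring A] [Algebra ℂ A] (τ : A →ₗ[ℂ] ℂ) (B : ι → Subalgebra ℂ A) : Prop :=
  ∀ l : List (ι × A), l ≠ [] → l.IsChain (fun a b => a.1 ≠ b.1) →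
    (∀ a ∈ l, a.2 ∈ B a.1 ∧ τ a.2 = 0) → τ (l.map Prod.snd).prod = 0

/-- The blocks `(x_i)_{c i = o}`, `o = 1, …, m`, of the tuple `x` are free: the algebras that they
generate are free. -/
def BlocksAreFree {m : ℕ} {A : Type} [Ring A] [Algebra ℂ A] (τ : A →ₗ[ℂ] ℂ) (x : Fin m → A)
    (c : Fin m → Fin m) : Prop :=
  AreFree τ (fun o : Fin m => Algebra.adjoin ℂ (x '' {i | c i = o}))

/-- The value at `x` of the monomial `w`. -/
def mon {m : ℕ} {A : Type} [Ring A] (x : Fin m → A) (w : List (Fin m)) : A := (w.map x).prod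

/-- The value `P(x)` of the noncommutative polynomial `P = ∑ P_w w`. -/
def val {m : ℕ} {A : Type} [Ring A] [Algebra ℂ A] (x : Fin m → A) (P : List (Fin m) →₀ ℂ) : A :=
  P.sum fun w r => r • mon x w

/-- No nonzero noncommutative polynomial vanishes at `x`. -/
def AlgebraicallyFree {m : ℕ} {A : Type} [Ring A] [Algebra ℂ A] (x : Fin m → A) : Prop :=
  ∀ P : List (Fin m) →₀ ℂ, val x P = 0 → P = 0

/-- `(τ ⊗ τ)(∂_i P)` at `x`; for a word `w` the sum of `τ(u) τ(v)` over all factorizations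
`w = u x_i v`. -/
def tauTauPartial {m : ℕ} {A : Type} [Ring A] [Algebra ℂ A] (τ : A →ₗ[ℂ] ℂ) (x : Fin m → A)
    (i : Fin m) (P : List (Fin m) →₀ ℂ) : ℂ :=
  P.sum fun w r => r * ∑ k ∈ Finset.range w.length,
    if w[k]? = some i then τ (mon x (w.take k)) * τ (mon x (w.drop (k + 1))) else 0

/-- The cyclic gradient `D_i H` at `x`; for a word `w` the sum of `v u` over all factorizations
`w = u x_i v`. -/
def cyclicGradient {m : ℕ} {A : Type} [Ring A] [Algebra ℂ A] (x : Fin m → A) (i : Fin m)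
    (H : List (Fin m) →₀ ℂ) : A :=
  H.sum fun w r => r • ∑ k ∈ Finset.range w.length,
    if w[k]? = some i then mon x (w.drop (k + 1)) * mon x (w.take k) else 0

/-- `‖a‖_2 = √(τ(a* a))` -/
def norm2 {A : Type} [CStarAlgebra A] (τ : A →ₗ[ℂ] ℂ) (a : A) : ℝ := Real.sqrt (τ (star a * a)).re

/-- All letters of the polynomial `P` are in `I`. -/
def InLetters {m : ℕ} (I : Set (Fin m)) (P : List (Fin m) →₀ ℂ) : Prop :=
  ∀ w ∈ P.support, ∀ j ∈ w, j ∈ I

/-- The conjugate variables of the tuple `(x_i)_{i ∈ I}` exist: the functionals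
`P(x) ↦ (τ ⊗ τ)(∂_i P)` on the polynomials in these `x_i` are bounded for `‖·‖_2`. -/
def ConjugateVariablesExistOn {m : ℕ} {A : Type} [CStarAlgebra A] (τ : A →ₗ[ℂ] ℂ)
    (x : Fin m → A) (I : Set (Fin m)) : Prop :=
  ∃ C : ℝ, ∀ i ∈ I, ∀ P : List (Fin m) →₀ ℂ, InLetters I P →
    ‖tauTauPartial τ x i P‖ ≤ C * norm2 τ (val x P)

/-- The answer of Q1 for the tuple `(x_i)_{i ∈ I}` is yes: its conjugate variables `J(x_i)` exist, and
for every `ε > 0` there is a polynomial `H` in the `x_i`, `i ∈ I`, with `‖J(x_i) - D_i H‖_2 ≤ ε` for all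
`i ∈ I` (tested against the polynomials `P` in the same variables). -/
def AnswerYesOn {m : ℕ} {A : Type} [CStarAlgebra A] (τ : A →ₗ[ℂ] ℂ) (x : Fin m → A)
    (I : Set (Fin m)) : Prop :=
  ∀ ε : ℝ, 0 < ε → ∃ H : List (Fin m) →₀ ℂ, InLetters I H ∧
    ∀ i ∈ I, ∀ P : List (Fin m) →₀ ℂ, InLetters I P →
      ‖tauTauPartial τ x i P - τ (cyclicGradient x i H * val x P)‖ ≤ ε * norm2 τ (val x P)

/-- The answer of Q1 for `x_1, …, x_m` is yes. -/
def AnswerYes {m : ℕ} {A : Type} [CStarAlgebra A] (τ : A →ₗ[ℂ] ℂ) (x : Fin m → A) : Prop :=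
  AnswerYesOn τ x Set.univ

theorem result {A : Type} [CStarAlgebra A] (τ : A →ₗ[ℂ] ℂ) (hτ : IsFaithfulTrace τ) (m : ℕ)
    (x : Fin m → A) :
    (∀ y : Fin m → A, AlgebraicallyFree x → AlgebraicallyFree y →
      Algebra.adjoin ℂ (Set.range x) = Algebra.adjoin ℂ (Set.range y) →
      (AnswerYes τ x ↔ AnswerYes τ y)) ∧
    (∀ c : Fin m → Fin m, (∀ i, IsSelfAdjoint (x i)) → BlocksAreFree τ x c →
      (AnswerYes τ x ↔ ∀ o, AnswerYesOn τ x {i | c i = o})) ∧
    (∀ p : Fin m → (List (Fin m) →₀ ℂ), AnswerYes τ x → ∃ ε₀ : ℝ, 0 < ε₀ ∧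
      ∀ ε : ℂ, ‖ε‖ ≤ ε₀ → AnswerYes τ (fun i => x i + ε • val x (p i))) ∧
    (∀ (n : ℕ) (f : Fin n → Fin m), Function.Injective f →
      (AnswerYesOn τ x (Set.range f) ↔ AnswerYes τ (x ∘ f))) ∧
    (∀ i, IsSelfAdjoint (x i) → ConjugateVariablesExistOn τ x {i} → AnswerYesOn τ x {i}) ∧
    (∀ y : Fin m → A, (∀ i, IsSelfAdjoint (x i)) → BlocksAreFree τ x id →
      (∀ i, ConjugateVariablesExistOn τ x {i}) → AlgebraicallyFree x → AlgebraicallyFree y →
      Algebra.adjoin ℂ (Set.range x) = Algebra.adjoin ℂ (Set.range y) → AnswerYes τ y) := by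
  have hT : Pool.CGR.IsTrace τ :=
    ⟨hτ.map_one, Pool.CGR.tnb_thm A τ hτ.map_one hτ.positive, hτ.trace, hτ.positive, hτ.faithful⟩
  have hcg : ∀ (n : ℕ) (y : Fin n → A) (i : Fin n) (H : List (Fin n) →₀ ℂ),
      cyclicGradient y i H = Pool.CGS.cp y i H := by
    intro n y i H
    refine Finsupp.sum_congr fun w _ => ?_
    congr 1
    refine Finset.sum_congr rfl fun k _ => ?_
    simp only [mon, Pool.CGR.ev, List.map_append, List.prod_append]
  have hon : ∀ (n : ℕ) (y : Fin n → A) (I : Set (Fin n)),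
      AnswerYesOn τ y I ↔ Pool.TAM.YesOn τ y I := by
    intro n y I
    unfold AnswerYesOn
    simp only [hcg]
    exact Iff.rfl
  have hyes : ∀ (n : ℕ) (y : Fin n → A), AnswerYes τ y ↔ Pool.CGS.Yes τ y := by
    intro n y
    unfold AnswerYes
    rw [hon]
    exact Pool.TAM.yes_iff_univ τ y
  have hinj : ∀ y : Fin m → A, AlgebraicallyFree y → Function.Injective (FreeAlgebra.lift ℂ y) :=
    fun y hy => Pool.AUT.inj_of_free y hy
  have h1 : ∀ x y : Fin m → A, AlgebraicallyFree x → AlgebraicallyFree y →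
      Algebra.adjoin ℂ (Set.range x) = Algebra.adjoin ℂ (Set.range y) →
      (AnswerYes τ x ↔ AnswerYes τ y) := by
    intro x y hx hy hxy
    rw [hyes, hyes]
    exact ⟨Pool.AUT.gen' m A τ hT x y (hinj x hx) (hinj y hy) hxy,
      Pool.AUT.gen' m A τ hT y x (hinj y hy) (hinj x hx) hxy.symm⟩
  have h2 : ∀ c : Fin m → Fin m, (∀ i, IsSelfAdjoint (x i)) → BlocksAreFree τ x c →
      (AnswerYes τ x ↔ ∀ o, AnswerYesOn τ x {i | c i = o}) := by
    intro c hx hB
    rw [hyes]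
    exact ⟨fun h o => (hon _ _ _).2 (Pool.AUT.joc' m A τ hT x c hB h o),
      fun h => Pool.TAM.jon' m A τ hT x c hx hB fun o => (hon _ _ _).1 (h o)⟩
  have h4 : ∀ i, IsSelfAdjoint (x i) → ConjugateVariablesExistOn τ x {i} →
      AnswerYesOn τ x {i} := by
    intro i hi hc
    obtain ⟨C, hC⟩ := hc
    exact (hon _ _ _).2 (Pool.TAM.one_on Pool.TAM.one_thm Pool.TAM.dic_thm τ hT x i hi
      ⟨C, fun P hP => hC i rfl P hP⟩)
  refine ⟨fun y => h1 x y, h2, fun p hx => ?_, fun n f hf => ?_, h4,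
    fun y hx hB hc hfx hfy hxy => ?_⟩
  · obtain ⟨ε₀, h0, hp⟩ := Pool.PER.per' m A τ hT x (fun i => Pool.CGS.pe Pool.AUT.io (p i))
      ((hyes m x).1 hx)
    refine ⟨ε₀, h0, fun ε hε => (hyes _ _).2 ?_⟩
    have h5 := hp ε hε
    simp only [Pool.AUT.lift_pe] at h5
    exact h5
  · rw [hon, hyes]
    exact Pool.TAM.dic_thm n m A τ x f hf
  · exact (h1 x y hfx hfy hxy).1 ((h2 id hx hB).2 fun o => h4 o (hx o) (hc o))

end Pool.Agent.Results.MP_286349_an.ClosureProperties
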