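import Pool.Agent.H18.CGR.All

/-!
MP_286349_an: for every self-adjoint tuple `y` and every free semicircular family `S` free from `y`,
the conjugate variables of `x = y + s S`, `s ≥ 100 m max ‖y_i‖`, are norm limits of cyclic gradients.
-/

set_option autoImplicit false

noncomputable section

open Filter
open scoped Topology

namespace Pool.Agent.Results.MP_286349_an.LargeSemicircular

/-- `τ` is a faithful tracial state of the unital C*-algebra `A`. -/
structure IsFaithfulTrace {A : Type} [CStarAlgebra A] (τ : A →ₗ[ℂ] ℂ) : Prop where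
  map_one : τ 1 = 1
  trace : ∀ a b, τ (a * b) = τ (b * a)
  positive : ∀ a, 0 ≤ (τ (star a * a)).re ∧ (τ (star a * a)).im = 0
  faithful : ∀ a, τ (star a * a) = 0 → a = 0

/-- The subalgebras `B j` are free with respect to `τ`: `τ(a_1 a_2 … a_n) = 0` for all `n ≥ 1`, all
indices `j_1 ≠ j_2 ≠ … ≠ j_n` and all `a_k ∈ B (j_k)` with `τ(a_k) = 0`. -/
def AreFree {A ι : Type} [Ring A] [Algebra ℂ A] (τ : A →ₗ[ℂ] ℂ) (B : ι → Subalgebra ℂ A) : Prop :=
  ∀ l : List (ι × A), l ≠ [] → l.IsChain (fun a b => a.1 ≠ b.1) →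
    (∀ a ∈ l, a.2 ∈ B a.1 ∧ τ a.2 = 0) → τ (l.map Prod.snd).prod = 0

/-- `a` is a standard semicircular element: self-adjoint, with even moments the Catalan numbers and
odd moments `0`. -/
def IsSemicircular {A : Type} [CStarAlgebra A] (τ : A →ₗ[ℂ] ℂ) (a : A) : Prop :=
  IsSelfAdjoint a ∧ ∀ n : ℕ, τ (a ^ (2 * n)) = catalan n ∧ τ (a ^ (2 * n + 1)) = 0

/-- `S_1, …, S_m` are standard semicircular, and the algebras generated by `{y_1, …, y_m}`, by `S_1`,
…, by `S_m` are free. -/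
def IsFreeSemicircularFamily {m : ℕ} {A : Type} [CStarAlgebra A] (τ : A →ₗ[ℂ] ℂ)
    (y S : Fin m → A) : Prop :=
  (∀ i, IsSemicircular τ (S i)) ∧
  AreFree τ (fun o : Option (Fin m) => Algebra.adjoin ℂ (o.elim (Set.range y) fun i => {S i}))

/-- The value at `x` of the monomial `w`. -/
def mon {m : ℕ} {A : Type} [Ring A] (x : Fin m → A) (w : List (Fin m)) : A := (w.map x).prod

/-- `(τ ⊗ τ)(∂_i w)` at `x`: the sum of `τ(u) τ(v)` over all factorizations `w = u x_i v`. -/
def tauTauPartial {m : ℕ} {A : Type} [Ring A] [Algebra ℂ A] (τ : A →ₗ[ℂ] ℂ) (x : Fin m → A)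
    (i : Fin m) (w : List (Fin m)) : ℂ :=
  ∑ k ∈ Finset.range w.length,
    if w[k]? = some i then τ (mon x (w.take k)) * τ (mon x (w.drop (k + 1))) else 0

/-- The cyclic gradient `D_i w` at `x`: the sum of `v u` over all factorizations `w = u x_i v`. -/
def cyclicMon {m : ℕ} {A : Type} [Ring A] (x : Fin m → A) (i : Fin m) (w : List (Fin m)) : A :=
  ∑ k ∈ Finset.range w.length,
    if w[k]? = some i then mon x (w.drop (k + 1)) * mon x (w.take k) else 0

/-- The cyclic gradient `D_i H` at `x` of the noncommutative polynomial `H = ∑ H_w w`. -/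
def cyclicGradient {m : ℕ} {A : Type} [Ring A] [Algebra ℂ A] (x : Fin m → A) (i : Fin m)
    (H : List (Fin m) →₀ ℂ) : A :=
  H.sum fun w r => r • cyclicMon x i w

/-- `J_1, …, J_m` are the conjugate variables of `x`, and there are polynomials `H_n` such that
`D_i H_n → J_i` in norm for all `i`. -/
def ConjugateVariablesAreLimits {m : ℕ} {A : Type} [CStarAlgebra A] (τ : A →ₗ[ℂ] ℂ)
    (x J : Fin m → A) : Prop :=
  (∀ i, IsSelfAdjoint (J i)) ∧
  (∀ (i : Fin m) (w : List (Fin m)), τ (J i * mon x w) = tauTauPartial τ x i w) ∧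
  ∃ H : ℕ → (List (Fin m) →₀ ℂ), ∀ i,
    Tendsto (fun n => cyclicGradient x i (H n)) atTop (𝓝 (J i))

theorem result {A : Type} [CStarAlgebra A] (τ : A →ₗ[ℂ] ℂ) (hτ : IsFaithfulTrace τ) (m : ℕ)
    (y S : Fin m → A) (hy : ∀ i, IsSelfAdjoint (y i)) (hS : IsFreeSemicircularFamily τ y S)
    (s : ℝ) (hs : 0 < s) (hys : ∀ i, 100 * m * ‖y i‖ ≤ s) :
    ∃ J : Fin m → A, ConjugateVariablesAreLimits τ (fun i => y i + (s : ℂ) • S i) J := by
  have hT : Pool.CGR.IsTrace τ :=
    ⟨hτ.map_one, Pool.CGR.tnb_thm A τ hτ.map_one hτ.positive, hτ.trace, hτ.positive, hτ.faithful⟩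
  have hSD : Pool.CGR.IsSemi τ y S :=
    Pool.CGR.fsb' m A τ hτ.map_one y S ⟨fun i n => (hS.1 i).2 n, fun l h1 h2 h3 => hS.2 l h1 h2 h3⟩
  have hR : ∃ R : ℝ, (∀ i, ‖y i‖ ≤ R) ∧ 100 * m * R ≤ s := by
    rcases Nat.eq_zero_or_pos m with h0 | h0
    · subst h0
      exact ⟨0, fun i => i.elim0, by simpa using hs.le⟩
    · have hm : (0 : ℝ) < 100 * m := by positivity
      refine ⟨s / (100 * m), fun i => ?_, ?_⟩
      · rw [le_div_iff₀ hm]
        linarith only [hys i]
      · rw [mul_div_cancel₀ _ hm.ne']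
  obtain ⟨R, hR1, hR2⟩ := hR
  obtain ⟨J, H, hJ, hH⟩ := Pool.CGR.main' m A τ hT y S s R hs hy
    (fun i => (hS.1 i).1) hSD hR1 hR2
  have hx : ∀ i, IsSelfAdjoint (y i + (s : ℂ) • S i) := fun i => by
    refine (hy i).add ?_
    rw [IsSelfAdjoint, star_smul, (hS.1 i).1.star_eq]
    simp
  refine ⟨J, fun i => Pool.CGR.saj_thm m A τ hT _ hx i (J i) (hJ i) H (hH i), fun i w => hJ i w, H,
    fun i => ?_⟩
  have hc : ∀ n, cyclicGradient (fun i => y i + (s : ℂ) • S i) i (H n) =
      (H n).sum fun w r => r • Pool.CGR.cg (fun i => y i + (s : ℂ) • S i) i w := by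
    intro n
    refine Finsupp.sum_congr fun w _ => ?_
    congr 1
    refine Finset.sum_congr rfl fun k _ => ?_
    simp only [mon, Pool.CGR.ev, List.map_append, List.prod_append]
  simp only [hc]
  exact hH i

end Pool.Agent.Results.MP_286349_an.LargeSemicircular
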