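import Pool.Agent.H18.QGR.All
import Pool.Agent.H22.CGR.SAJ
import Pool.Agent.H21.CGR.TNB

/-!
MP_286349_an: for every mixed `q_ij`-Gaussian tuple, `|q_ij| < 1` (in particular for the `q`-Gaussian
tuples, `-1 < q < 1`), the conjugate variables are norm limits of cyclic gradients of polynomials.
-/

set_option autoImplicit false

noncomputable section

open Filter
open scoped Topology

namespace Pool.Agent.Results.MP_286349_an.MixedQGaussian

/-- `τ` is a faithful tracial state of the unital C*-algebra `A`. -/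
structure IsFaithfulTrace {A : Type} [CStarAlgebra A] (τ : A →ₗ[ℂ] ℂ) : Prop where
  map_one : τ 1 = 1
  trace : ∀ a b, τ (a * b) = τ (b * a)
  positive : ∀ a, 0 ≤ (τ (star a * a)).re ∧ (τ (star a * a)).im = 0
  faithful : ∀ a, τ (star a * a) = 0 → a = 0

/-- The algebraic Fock space: finite combinations of the tensors `e_w = e_(w_1) ⊗ ⋯ ⊗ e_(w_n)`. -/
abbrev Fock (m : ℕ) : Type := List (Fin m) →₀ ℂ

/-- The annihilation operator `l_j^*` of the mixed `q`-Fock space:
`l_j^* e_w = ∑_k [w_k = j] q_(j w_1) ⋯ q_(j w_(k-1)) e_(w without w_k)`. -/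
def annihilation {m : ℕ} (q : Fin m → Fin m → ℝ) (j : Fin m) : Fock m →ₗ[ℂ] Fock m :=
  Finsupp.linearCombination ℂ fun w => ∑ k ∈ Finset.range w.length,
    if w[k]? = some j then
      Finsupp.single (w.eraseIdx k) (((w.take k).map fun a => (q j a : ℂ)).prod) else 0

/-- The creation operator `l_j e_w = e_(j w)`. -/
def creation {m : ℕ} (j : Fin m) : Fock m →ₗ[ℂ] Fock m := Finsupp.lmapDomain ℂ ℂ fun w => j :: w

/-- The vacuum moment `⟨Ω, (l_(w_1) + l_(w_1)^*) ⋯ (l_(w_n) + l_(w_n)^*) Ω⟩`. -/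
def vacuumMoment {m : ℕ} (q : Fin m → Fin m → ℝ) (w : List (Fin m)) : ℂ :=
  (w.foldr (fun j f => (creation j + annihilation q j) f) (Finsupp.single [] 1)) []

/-- The value at `x` of the monomial `w`. -/
def mon {m : ℕ} {A : Type} [Ring A] (x : Fin m → A) (w : List (Fin m)) : A := (w.map x).prod

/-- `x` is a mixed `q`-Gaussian tuple: the `x_i` are self-adjoint, and their joint moments are those
of the field operators of the mixed `q`-Fock space in the vacuum state. -/
def IsMixedQGaussian {m : ℕ} {A : Type} [CStarAlgebra A] (q : Fin m → Fin m → ℝ)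
    (τ : A →ₗ[ℂ] ℂ) (x : Fin m → A) : Prop :=
  (∀ i, IsSelfAdjoint (x i)) ∧ ∀ w : List (Fin m), τ (mon x w) = vacuumMoment q w

/-- `(τ ⊗ τ)(∂_i w)` at `x`: the sum of `τ(u) τ(v)` over all factorizations `w = u x_i v`. -/
def tauTauPartial {m : ℕ} {A : Type} [Ring A] [Algebra ℂ A] (τ : A →ₗ[ℂ] ℂ) (x : Fin m → A)
    (i : Fin m) (w : List (Fin m)) : ℂ :=
  ∑ k ∈ Finset.range w.length,
    if w[k]? = some i then τ (mon x (w.take k)) * τ (mon x (w.drop (k + 1))) else 0

/-- The cyclic gradient `D_i w` at `x`: the sum of `v u` over all factorizations `w = u x_i v`. -/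
def cyclicMon {m : ℕ} {A : Type} [Ring A] (x : Fin m → A) (i : Fin m) (w : List (Fin m)) : A :=
  ∑ k ∈ Finset.range w.length,
    if w[k]? = some i then mon x (w.drop (k + 1)) * mon x (w.take k) else 0

/-- The cyclic gradient `D_i H` at `x` of the noncommutative polynomial `H = ∑ H_w w`. -/
def cyclicGradient {m : ℕ} {A : Type} [Ring A] [Algebra ℂ A] (x : Fin m → A) (i : Fin m)
    (H : List (Fin m) →₀ ℂ) : A :=
  H.sum fun w r => r • cyclicMon x i w

/-- `J_1, …, J_m` are the conjugate variables of `x`, and there are polynomials `H_n` such that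
`D_i H_n → J_i` in norm for all `i`. -/
def ConjugateVariablesAreLimits {m : ℕ} {A : Type} [CStarAlgebra A] (τ : A →ₗ[ℂ] ℂ)
    (x J : Fin m → A) : Prop :=
  (∀ i, IsSelfAdjoint (J i)) ∧
  (∀ (i : Fin m) (w : List (Fin m)), τ (J i * mon x w) = tauTauPartial τ x i w) ∧
  ∃ H : ℕ → (List (Fin m) →₀ ℂ), ∀ i,
    Tendsto (fun n => cyclicGradient x i (H n)) atTop (𝓝 (J i))

theorem result {A : Type} [CStarAlgebra A] (τ : A →ₗ[ℂ] ℂ)
    (hτ : IsFaithfulTrace τ) (m : ℕ)
    (q : Fin m → Fin m → ℝ) (hq : ∀ i j, q i j = q j i) (hq1 : ∀ i j, |q i j| < 1)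
    (x : Fin m → A) (hx : IsMixedQGaussian q τ x) :
    ∃ J : Fin m → A, ConjugateVariablesAreLimits τ x J := by
  have hT : Pool.CGR.IsTrace τ :=
    ⟨hτ.map_one, Pool.CGR.tnb_thm A τ hτ.map_one hτ.positive, hτ.trace, hτ.positive, hτ.faithful⟩
  have hQ : ∃ Q : ℝ, Pool.QGR.SQ q Q := by
    rcases Nat.eq_zero_or_pos m with h0 | h0
    · subst h0
      exact ⟨0, fun i => i.elim0, fun i => i.elim0, le_rfl, one_pos⟩
    · have : Nonempty (Fin m × Fin m) := ⟨(⟨0, h0⟩, ⟨0, h0⟩)⟩
      obtain ⟨p, hp⟩ := Finite.exists_max (fun p : Fin m × Fin m => |q p.1 p.2|)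
      exact ⟨|q p.1 p.2|, hq, fun i j => hp (i, j), abs_nonneg _, hq1 _ _⟩
  obtain ⟨Q, hQ⟩ := hQ
  have hF : ∀ w : List (Fin m), w.foldr (fun j f => (creation j + annihilation q j) f)
      (Finsupp.single [] 1) = Pool.QGR.Fk q w := by
    intro w
    induction w with
    | nil => rfl
    | cons a w ih =>
      rw [List.foldr_cons, ih]
      rfl
  have hL : Pool.QGR.Law q τ x := fun w => by
    have h := hx.2 w
    rw [vacuumMoment, hF] at h
    exact h
  obtain ⟨J, H, hJ, hH⟩ := Pool.QGR.fin' m q Q hQ A τ hT x hL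
  refine ⟨J, fun i => Pool.CGR.saj_thm m A τ hT _ hx.1 i (J i) (hJ i) H (hH i),
    fun i w => hJ i w, H, fun i => ?_⟩
  have hc : ∀ n, cyclicGradient x i (H n) = (H n).sum fun w r => r • Pool.CGR.cg x i w := by
    intro n
    refine Finsupp.sum_congr fun w _ => ?_
    congr 1
    refine Finset.sum_congr rfl fun k _ => ?_
    simp only [mon, Pool.CGR.ev, List.map_append, List.prod_append]
  simp only [hc]
  exact hH i

end Pool.Agent.Results.MP_286349_an.MixedQGaussian
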