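import Pool.Agent.H34.CGS.All

/-!
MP_286349_an: reduction of the question to the tuples `x + s S` with `S` free semicircular and `s`
arbitrarily small, whose conjugate variables are bounded.
-/

set_option autoImplicit false

noncomputable section

namespace Pool.Agent.Results.MP_286349_an.SmallSemicircular

/-- `τ` is a faithful tracial state of the unital C*-algebra `A`. -/
structure IsFaithfulTrace {A : Type} [CStarAlgebra A] (τ : A →ₗ[ℂ] ℂ) : Prop where
  map_one : τ 1 = 1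
  trace : ∀ a b, τ (a * b) = τ (b * a)
  positive : ∀ a, 0 ≤ (τ (star a * a)).re ∧ (τ (star a * a)).im = 0
  faithful : ∀ a, τ (star a * a) = 0 → a = 0

/-- The subalgebras `B j` are free with respect to `τ`: `τ(a_1 a_2 … a_n) = 0` for all `n ≥ 1`, all
indices `j_1 ≠ j_2 ≠ … ≠ j_n` and all `a_k ∈ B (j_k)` with `τ(a_k) = 0`. -/
def AreFree {A ι : Type} [Ring A] [Algebra ℂ A] (τ : A →ₗ[ℂ] ℂ) (B : ι → Subalgebra ℂ A) : Prop :=
  ∀ l : List (ι × A), l ≠ [] → l.IsChain (fun a b => a.1 ≠ b.1) →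
    (∀ a ∈ l, a.2 ∈ B a.1 ∧ τ a.2 = 0) → τ (l.map Prod.snd).prod = 0

/-- `a` is a standard semicircular element: self-adjoint, with even moments the Catalan numbers and
odd moments `0`. -/
def IsSemicircular {A : Type} [CStarAlgebra A] (τ : A →ₗ[ℂ] ℂ) (a : A) : Prop :=
  IsSelfAdjoint a ∧ ∀ n : ℕ, τ (a ^ (2 * n)) = catalan n ∧ τ (a ^ (2 * n + 1)) = 0

/-- `S_1, …, S_m` are standard semicircular, and the algebras generated by `{x_1, …, x_m}`, by `S_1`,
…, by `S_m` are free. -/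
def IsFreeSemicircularFamily {m : ℕ} {A : Type} [CStarAlgebra A] (τ : A →ₗ[ℂ] ℂ)
    (x S : Fin m → A) : Prop :=
  (∀ i, IsSemicircular τ (S i)) ∧
  AreFree τ (fun o : Option (Fin m) => Algebra.adjoin ℂ (o.elim (Set.range x) fun i => {S i}))

/-- The tuple `x + s S`. -/
def shift {m : ℕ} {A : Type} [Ring A] [Algebra ℂ A] (x S : Fin m → A) (s : ℝ) : Fin m → A :=
  fun i => x i + (s : ℂ) • S i

/-- The value at `x` of the monomial `w`. -/
def mon {m : ℕ} {A : Type} [Ring A] (x : Fin m → A) (w : List (Fin m)) : A := (w.map x).prod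

/-- The value `P(x)` of the noncommutative polynomial `P = ∑ P_w w`. -/
def val {m : ℕ} {A : Type} [Ring A] [Algebra ℂ A] (x : Fin m → A) (P : List (Fin m) →₀ ℂ) : A :=
  P.sum fun w r => r • mon x w

/-- `(τ ⊗ τ)(∂_i P)` at `x`; for a word `w` the sum of `τ(u) τ(v)` over all factorizations
`w = u x_i v`. -/
def tauTauPartial {m : ℕ} {A : Type} [Ring A] [Algebra ℂ A] (τ : A →ₗ[ℂ] ℂ) (x : Fin m → A)
    (i : Fin m) (P : List (Fin m) →₀ ℂ) : ℂ :=
  P.sum fun w r => r * ∑ k ∈ Finset.range w.length,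
    if w[k]? = some i then τ (mon x (w.take k)) * τ (mon x (w.drop (k + 1))) else 0

/-- The cyclic gradient `D_i H` at `x`; for a word `w` the sum of `v u` over all factorizations
`w = u x_i v`. -/
def cyclicGradient {m : ℕ} {A : Type} [Ring A] [Algebra ℂ A] (x : Fin m → A) (i : Fin m)
    (H : List (Fin m) →₀ ℂ) : A :=
  H.sum fun w r => r • ∑ k ∈ Finset.range w.length,
    if w[k]? = some i then mon x (w.drop (k + 1)) * mon x (w.take k) else 0

/-- `‖a‖_2 = √(τ(a* a))` -/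
def norm2 {A : Type} [CStarAlgebra A] (τ : A →ₗ[ℂ] ℂ) (a : A) : ℝ := Real.sqrt (τ (star a * a)).re

/-- `J(x_1), …, J(x_m)` exist: the functional `P(x) ↦ (τ ⊗ τ)(∂_i P)` is bounded for `‖·‖_2`. -/
def ConjugateVariablesExist {m : ℕ} {A : Type} [CStarAlgebra A] (τ : A →ₗ[ℂ] ℂ)
    (x : Fin m → A) : Prop :=
  ∃ C : ℝ, ∀ (i : Fin m) (P : List (Fin m) →₀ ℂ),
    ‖tauTauPartial τ x i P‖ ≤ C * norm2 τ (val x P)

/-- The answer of Q1 for `x` is yes: `J(x_i)` exists for all `i`, and for every `ε > 0` there is a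
polynomial `H` with `‖J(x_i) - D_i H‖_2 ≤ ε` for all `i`. -/
def AnswerYes {m : ℕ} {A : Type} [CStarAlgebra A] (τ : A →ₗ[ℂ] ℂ) (x : Fin m → A) : Prop :=
  ∀ ε : ℝ, 0 < ε → ∃ H : List (Fin m) →₀ ℂ, ∀ (i : Fin m) (P : List (Fin m) →₀ ℂ),
    ‖tauTauPartial τ x i P - τ (cyclicGradient x i H * val x P)‖ ≤ ε * norm2 τ (val x P)

/-- The conjugate variables of `y` exist, and the tuple `E_x(J(y_1)), …, E_x(J(y_m))` of their
projections onto `L²(x)` is in the closure of the cyclic gradients of `x`: for every `ε > 0` there are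
polynomials `G_1, …, G_m`, `Q` with `‖J(y_i) - G_i(y)‖_2 ≤ ε` and `‖E_x(G_i(y)) - D_i Q(x)‖_2 ≤ ε`. -/
def ProjectionIsLimit {m : ℕ} {A : Type} [CStarAlgebra A] (τ : A →ₗ[ℂ] ℂ)
    (x y : Fin m → A) : Prop :=
  ∀ ε : ℝ, 0 < ε → ∃ (G : Fin m → (List (Fin m) →₀ ℂ)) (Q : List (Fin m) →₀ ℂ),
    ∀ (i : Fin m) (P : List (Fin m) →₀ ℂ),
      ‖tauTauPartial τ y i P - τ (val y (G i) * val y P)‖ ≤ ε * norm2 τ (val y P) ∧
      ‖τ (val y (G i) * val x P) - τ (cyclicGradient x i Q * val x P)‖ ≤ ε * norm2 τ (val x P)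

theorem result {A : Type} [CStarAlgebra A] (τ : A →ₗ[ℂ] ℂ) (hτ : IsFaithfulTrace τ) (m : ℕ)
    (x S : Fin m → A) (hx : ∀ i, IsSelfAdjoint (x i)) (hS : IsFreeSemicircularFamily τ x S) :
    (∀ (s : ℝ) (i : Fin m) (P : List (Fin m) →₀ ℂ),
      s * tauTauPartial τ (shift x S s) i P = τ (S i * val (shift x S s) P)) ∧
    (∀ s : ℝ, AnswerYes τ (shift x S s) → ProjectionIsLimit τ x (shift x S s)) ∧
    (∀ s : ℝ, 0 < s → (∀ i, 100 * m * ‖x i‖ ≤ s) → ProjectionIsLimit τ x (shift x S s)) ∧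
    (ConjugateVariablesExist τ x →
      (∀ δ : ℝ, 0 < δ → ∃ s : ℝ, 0 < s ∧ s < δ ∧ ProjectionIsLimit τ x (shift x S s)) →
      AnswerYes τ x) := by
  have hT : Pool.CGR.IsTrace τ :=
    ⟨hτ.map_one, Pool.CGR.tnb_thm A τ hτ.map_one hτ.positive, hτ.trace, hτ.positive, hτ.faithful⟩
  have hSD : Pool.CGR.IsSemi τ x S :=
    Pool.CGR.fsb' m A τ hτ.map_one x S ⟨fun i n => (hS.1 i).2 n, fun l h1 h2 h3 => hS.2 l h1 h2 h3⟩
  have hcg : ∀ (y : Fin m → A) (i : Fin m) (H : List (Fin m) →₀ ℂ),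
      cyclicGradient y i H = Pool.CGS.cp y i H := by
    intro y i H
    refine Finsupp.sum_congr fun w _ => ?_
    congr 1
    refine Finset.sum_congr rfl fun k _ => ?_
    simp only [mon, Pool.CGR.ev, List.map_append, List.prod_append]
  have hyes : ∀ y : Fin m → A, AnswerYes τ y ↔ Pool.CGS.Yes τ y := by
    intro y
    unfold AnswerYes
    simp only [hcg]
    exact Iff.rfl
  have hpr : ∀ y : Fin m → A, ProjectionIsLimit τ x y ↔ Pool.CGS.Proj τ x y := by
    intro y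
    unfold ProjectionIsLimit
    simp only [hcg]
    exact Iff.rfl
  refine ⟨fun s i P => Pool.CGS.bdd' m A τ x S hSD s i P, fun s h => ?_, fun s hs h => ?_,
    fun hc h => ?_⟩
  · rw [hpr]
    exact Pool.CGS.proj_of_yes' m A τ hT x S hSD s ((hyes _).1 h)
  · rw [hpr]
    exact Pool.CGS.proj_large m A τ hT x S hx (fun i => (hS.1 i).1) hSD s hs h
  · rw [hyes]
    refine Pool.CGS.yes_of_proj' m A τ hT x S hx (fun i => (hS.1 i).1) hSD hc fun δ hδ => ?_
    obtain ⟨s, h1, h2, h3⟩ := h δ hδ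
    exact ⟨s, h1, h2, (hpr _).1 h3⟩

end Pool.Agent.Results.MP_286349_an.SmallSemicircular
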